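import Pool.Agent.H833.EK.Kim2

/-!
# Kimura finite-dimensionality of the birational motives of powers of elliptic K3 surfaces

Let `h°(X)` be the birational motive of a smooth projective variety `X` in the sense of Kahn and
Sujatha, that is, its Chow motive up to the morphisms which factor through motives of the form
`M ⊗ L`, with the Lefschetz motive `L`. We have `h°(X × Y) = h°(X) ⊗ h°(Y)`, and
`Λ^N h°(X) = 0` if and only if the antisymmetrisations of all zero-cycles on `X^N` (with rational
coefficients, over all fields) are rationally equivalent to zero; this is the assertion `Wedge X N`.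

Let `S` be a K3 surface with a fibration in curves of genus one (more generally a surface in the class
`EllK3`). The theorem proves that the birational motives of all powers of `S`, and of all varieties
dominated by powers of `S`, are evenly finite-dimensional in the sense of Kimura:

* `Λ^N h°(X) = 0` if `N > 2^m` and if there is a surjective morphism from `S^m` to `X`; the same is true
  for the varieties `X'` with a morphism to `X` such that curves in `X` can be lifted to `X'` and the
  fibres are rationally chain connected.
* Let `Γ` be a group of permutations, or of signed permutations, of `m` letters, which act on `S^m` by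
  permutations of the factors and by the involution `ι` given by the inversion of the fibres in some
  of the factors (if there is a section or a `2`-section). Let `X` be the quotient `S^m / Γ` or a
  resolution of it. Then `Λ^N h°(X) = 0` if `N > ∑ h^{p,0}(X)`; here `∑ h^{p,0}(X)` is the number
  of the orbits of `Γ` on the set of the subsets `T` of `{1, …, m}` such that all the elements of `Γ`
  which preserve `T` preserve the form `ω_T` (the product of the pull backs of the two-form `ω` of
  `S`). This is the condition `Exceeds Γ N`. The bound is the best possible.
  For example `Λ^(m+2) h°(S^[m]) = 0` for the Hilbert schemes, and `Λ^3 h°(X) = 0` for the strict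
  Calabi-Yau varieties among the quotients.

The proof decomposes the cycles on `(S^m)^N` into parts indexed by `N` subsets of `{1, …, m}`. All
permutations of factors of degree zero act trivially (Voisin's conjecture for `S`, see
`MP_83b46e_ag.EllipticK3`), and if two of the subsets are equal (or in the same orbit) there is a
transposition of the blocks which acts on this part as the identity and as the sign.
-/

set_option autoImplicit false

namespace Pool.Agent.Results.MP_868bb7_ag.BirationalMotives

open Pool.Agent.H833.EK Polynomial

/-- **Kimura finite-dimensionality of the birational motives of the varieties dominated by powers of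
elliptic K3 surfaces.** -/
theorem result {k : Type} [Field k] [CharZero k] [IsAlgClosed k] (m N : ℕ) :
    (2 ^ m < N → ∀ S : Geo k, EllK3 S → ∀ X : Geo k, X.Nice → ∀ _ : Onto S m X,
      Wedge X N ∧ ∀ (X' : Geo k) (π : Geo.Hom X' X), Geo.Resolves π → Wedge X' N) ∧
    ∀ Γ : Set (Equiv.Perm (Fin m) × (Fin m → Bool)), Exceeds Γ N →
      ((∀ g ∈ Γ, ∀ j, g.2 j = false) → ∀ S : Geo k, EllK3 S → WedgeQuot S id m Γ N) ∧
      ∀ (e : ℕ) (c : Fin 5 → MvPolynomial (Fin 2) k), Wts e c →
        WedgeQuot (dcover e c) DPt.opp m Γ N ∧
        ∀ (S : Geo k) (π : Geo.Hom S (dcover e c)), Geo.Resolves π → ∀ (ι : Geo.Hom S S),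
          (∀ x, (dcover e c).Same (π.map k (ι.map k x)) (DPt.opp (π.map k x))) →
          WedgeQuot S (ι.map k) m Γ N :=
  ⟨fun hm _ hS _ hX f => ⟨hS.wedge hm hX f, fun _ _ h => h.wedge hX (hS.wedge hm hX f)⟩,
    fun _ hN => ⟨fun hΓ _ hS => hS.wedgeQuot hN hΓ, fun _ _ hc => ⟨wedgeQuot_dcover hc hN,
      fun _ _ hπ _ hι => wedgeQuot_res hc hN hπ hι⟩⟩⟩

end Pool.Agent.Results.MP_868bb7_ag.BirationalMotives
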