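import Pool.Agent.H939.PK.Main

/-!
# MP_868bb7_ag : Kimura's conjecture and the standard conjecture D, over one field and over all fields

`FieldMotives p` lists formal properties of the categories `DM_c(k)` of constructible motives with
rational coefficients over all the fields `k` of characteristic `p` (in one universe), of their
cohomology, of the Chow motives, and of the base change functors along the embeddings of fields.

**Theorem.** Let `k` and `K` be any two fields of the same characteristic `p`.
1. The following are equivalent: all Chow motives over `k` are finite dimensional in the sense of
   Kimura and homological and numerical equivalence agree over `k` (the standard conjecture D);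
   all Chow motives over `K` are finite dimensional and D holds over `K`.
2. Suppose that the sign conjecture (the projector onto the cohomology in even degrees is algebraic)
   holds over `k`, for instance that `k` is a finite field. The following are equivalent:
   * all Chow motives over `K` are finite dimensional and D holds over `K`;
   * the realisation of `DM_c(K)` is conservative;
   * the realisation of `DM_c(k)` is conservative;
   * over `k`, a morphism of Chow motives which is an isomorphism on cohomology is an isomorphism, and
     D holds;
   * over `k`, homologically trivial self-correspondences are nilpotent, and D holds.

So Kimura's conjecture together with D over `ℂ` is equivalent to the same for varieties over `ℚ`. In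
characteristic `p > 0` Kimura's conjecture together with D for all fields is equivalent to the same
for `𝔽_p`, and also to the nilpotence of homologically trivial correspondences together with D for
varieties over `𝔽_p`; they follow for all fields (with the sign conjecture, which is not known for
infinite fields) from the conservativity of the `ℓ`-adic realisation of `DM_c(K)` for one field `K` of
characteristic `p`. The equivalence of the conditions with the sign conjecture over one and the same
field is the library theorem `ConservativityAndSign`.

## Why the categories `DM_c(k)` have the properties listed in `FieldMotives`

`H(A)` is the `ℓ`-adic cohomology in degree zero of the realisation of `A`, with its structure of a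
Galois representation over finitely generated subfields (`ℓ ≠ p`), and `W k` is the class of the
representations of weights `≥ k`. `KC.Setup` is as in `ConservativityAndSign` (duals, `End(1) = ℚ`,
Chow motives generate `DM_c(k)`, weights, Kuenneth formula). Motives with rational coefficients do not
change under purely inseparable extensions, so let `k`, `K` be perfect. Let `K/k` be an extension.
Objects and morphisms of `DM_c(K)` extend to `DM_c(U)`, for an integral variety `U`, smooth over `k`,
with a point `Spec K → U` over the generic point, such that the extended objects have duals. Then
all the cohomology sheaves of their realisations are lisse. Let `π : U → Spec k`.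
* `acyclic`, `parity`, `chow`: the realisation of the base change of `A` is the restriction of the
  realisation of `A`. `faithfulP`, `specialise`: restrict to a closed point `u` of `U`, and average
  over `k(u)/k`.
* `pushForward`: let `A` be without cohomology, and `A_U` a model of `A`. Its realisation is zero. So
  `N = π_* Hom(A_U, A_U)` has realisation `π_* Hom(R A_U, R A_U) = 0`. The identity of `A_U` is a
  morphism `1 ⟶ N`, and the evaluation `π^* N ⊗ A_U ⟶ A_U` gives `PG.ComesFrom`.
* `algebraic`: a Chow motive over `K` comes from a finite extension `L/k`; take its push-forward.
* `models`: let `k` be algebraically closed. A Chow motive `X` over `K` extends to a direct summand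
  `X_U` of a Tate twist of the motive of a smooth projective scheme over `U`. Let `u ∈ U(k)`,
  `E = X_u`, `N = π_* Hom(X_U, X_U)` and `g : N ⟶ Hom(X_u, X_u) = E ⊗ Eᘁ`. `N` is of weight `≥ 0`
  (Bondarko, Hébert: it is a direct summand of a twist of the cohomological motive of a smooth
  variety). By Deligne the realisation of `X_U` is the direct sum of its shifted cohomology sheaves.
  So it has an endomorphism which is `1` on the cohomology sheaves in even degrees and `-1` on
  those in odd degrees, that is, a class `x : H(1) ⟶ H(N)`; its restriction to the fibre is the
  class of the parity operators of `E`. A morphism `y : 1 ⟶ N` is an endomorphism of `X_U`; if it is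
  a parity operator on the fibre `E` then it is one on `X`, since the cohomology sheaves are lisse.

## The proof

(1) If the realisation is conservative over `k` then so it is over an extension `K`: by `pushForward`
the identity of an object without cohomology comes from `1 ⟶ N` with `N = 0`. The converse follows
from the faithfulness of base change. (2) Let `k` be algebraically closed and assume D and the sign
conjecture over `k`. Let `X`, `E`, `N`, `g`, `x` be as above, and `Q` a parity operator of `E`. Take a
weight filtration of `N`: there is a distinguished triangle `C ⟶ N ⟶ N' ⟶ C[1]` with a Chow motive
`C` and `H(N')` of weights `≥ 1`. So `x` maps to zero in `H(N')`, and the class of `Q` lies in the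
image of `H(C)` in `H(E ⊗ Eᘁ)`. By D and Jannsen's semisimplicity theorem `c : C ⟶ E ⊗ Eᘁ` has a
quasi-inverse `s`, `c s c = c` up to homologically trivial correspondences; so the class of `Q` is
the image of the algebraic class `s(Q)` of `C`. The resulting morphism `1 ⟶ C ⟶ N` is a parity
operator on `E`, so `X` has a parity operator. Hence the sign conjecture holds over `K`. (3) By
`ConservativityAndSign`, Kimura's conjecture and D are equivalent to conservativity and the sign
conjecture. For arbitrary `k`, `K` pass from `k` to its algebraic closure, down to the algebraic
closure of the prime field, up to the algebraic closure of `K` and down to `K`.
-/

open CategoryTheory Limits MonoidalCategory Triangulated Pretriangulated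

namespace Pool.Agent.Results.MP_868bb7_ag.OneFieldDecides

open Pool.Agent.H939.PK

universe u v₁ u₁ v₂ u₂

theorem result {p : ℕ} (M : FieldMotives.{u, v₁, u₁, v₂, u₂} p)
    (k K : Type u) [Field k] [CharP k p] [Field K] [CharP K p] :
    ((M.obj k).Kimura ∧ (M.obj k).StandardD ↔ (M.obj K).Kimura ∧ (M.obj K).StandardD) ∧
    ((M.obj k).Sign → List.TFAE [
      (M.obj K).Kimura ∧ (M.obj K).StandardD,
      (M.obj K).Conservative,
      (M.obj k).Conservative,
      (M.obj k).ChowConservative ∧ (M.obj k).StandardD,
      (M.obj k).ChowNilpotence ∧ (M.obj k).StandardD]) :=
  ⟨⟨kimura_of_kimura M k K, kimura_of_kimura M K k⟩, tfae_of_sign M k K⟩

end Pool.Agent.Results.MP_868bb7_ag.OneFieldDecides
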